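import Pool.Agent.Zam.Final

/-! `Z(n) ≤ 2^{140 √(n log n)}`, so the ZAM complexity of every two-party function on `n`-bit
inputs is subexponential. -/

namespace Pool.Agent.Results.MP_104b1e_lc.SubexpZAM

open Zam Filter

theorem result :
    (∀ (n : ℕ) (f : (Fin n → Bool) → (Fin n → Bool) → Bool),
      ∃ P : Protocol (Fin n → Bool) (Fin n → Bool), P.IsZAM f ∧ P.cost = zam f) ∧
    (∀ n : ℕ, 2 ≤ n → (Z n : ℝ) ≤ (2 : ℝ) ^ (140 * Real.sqrt (n * Real.log n))) ∧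
    (∀ ε : ℝ, 0 < ε → ∀ᶠ n : ℕ in atTop, (Z n : ℝ) ≤ (2 : ℝ) ^ (ε * n)) ∧
    (∀ (X Y : Type) [Fintype Y] (n : ℕ), 2 ≤ n → Fintype.card Y ≤ 2 ^ n →
      ∀ f : X → Y → Bool, ∃ P : Protocol X Y, P.IsZAM f ∧
        (P.cost : ℝ) ≤ (2 : ℝ) ^ (140 * Real.sqrt (n * Real.log n))) :=
  ⟨fun _ f => zam_attained f, Z_le, Z_subexp, fun _ _ _ n hn hY f => exists_zam_bound n hn hY f⟩

end Pool.Agent.Results.MP_104b1e_lc.SubexpZAM
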